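import Pool.Agent.C4U.Stmts

/-!
Squad C4U, row PRI: local search as tests on words.
-/

set_option autoImplicit false

namespace Pool.Agent.C4U.H59

open Pool.Agent.C4F
open Pool.Agent.C4U
open Pool.Agent.Helper53_CookLevin (PGen)
open Pool.Agent.Helper53_Chan (Test Test.congr)

theorem timp (K : Kit) {r : ℕ} {P Q : (Fin r → List Lt) → Prop} (hP : Test r P)
    (hQ : Test r Q) : Test r (fun ρ => P ρ → Q ρ) :=
  Test.congr (K.or r _ _ (K.not r _ hP) hQ) fun ρ => (imp_iff_not_or).symm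

theorem tiff (K : Kit) {r : ℕ} {P Q : (Fin r → List Lt) → Prop} (hP : Test r P)
    (hQ : Test r Q) : Test r (fun ρ => P ρ ↔ Q ρ) :=
  Test.congr (K.and r _ _ (timp K hP hQ) (timp K hQ hP)) fun ρ =>
    ⟨fun h => ⟨h.1, h.2⟩, fun h => ⟨h.1, h.2⟩⟩

/-- improving pairs -/
theorem tim (h : PraStmt) (K : Kit) {r : ℕ} (e : Fin 5 → Fin r)
    {x y : (Fin r → List Lt) → ℕ} (hx : NumF r x) (hy : NumF r y) :
    Test r (fun ρ => (rd (At e ρ)).Im (x ρ) (y ρ)) := by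
  obtain ⟨-, hN, -, -, hr⟩ := h K r e
  obtain ⟨-, hN1, -, -, hr1⟩ := h K (r + 1) (fun i => (e i).succ)
  obtain ⟨-, hN2, -, -, hr2⟩ := h K (r + 1 + 1) (fun i => (e i).succ.succ)
  have hx1 : NumF (r + 1) (fun ρ => x (fun i => ρ i.succ)) := K.rename r (r + 1) Fin.succ x hx
  have hx2 : NumF (r + 1 + 1) (fun ρ => x (fun i => ρ i.succ.succ)) :=
    K.rename r (r + 1 + 1) (fun i => i.succ.succ) x hx
  have hy2 : NumF (r + 1 + 1) (fun ρ => y (fun i => ρ i.succ.succ)) :=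
    K.rename r (r + 1 + 1) (fun i => i.succ.succ) y hy
  have hv1 : NumF (r + 1) (fun ρ : Fin (r + 1) → List Lt => (ρ 0).length) := K.var _ 0
  have hv2 : NumF (r + 1 + 1) (fun ρ : Fin (r + 1 + 1) → List Lt => (ρ 0).length) := K.var _ 0
  have hw2 : NumF (r + 1 + 1) (fun ρ : Fin (r + 1 + 1) → List Lt => (ρ 1).length) := K.var _ 1
  -- the first case
  have h1 : Test r (fun ρ => ∀ u < (rd (At e ρ)).N, (rd (At e ρ)).J u →
      ¬ (rd (At e ρ)).Cl (x ρ) u) :=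
    K.all r (fun ρ => (rd (At e ρ)).N)
      (fun u ρ => (rd (At e ρ)).J u → ¬ (rd (At e ρ)).Cl (x ρ) u) hN
      (timp K (hr1 _ _ hv1 hv1).2.1 (K.not _ _ (hr1 _ _ hx1 hv1).2.2.1))
  -- the second case
  have h2 : Test (r + 1) (fun ρ => ∀ u < (rd (At (fun i => (e i).succ) ρ)).N,
      (rd (At (fun i => (e i).succ) ρ)).J u →
      (((rd (At (fun i => (e i).succ) ρ)).Cl (x (fun i => ρ i.succ)) u ↔ u = (ρ 0).length) ∧
       ((rd (At (fun i => (e i).succ) ρ)).Cl (y (fun i => ρ i.succ)) u ↔ u = (ρ 0).length))) :=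
    K.all (r + 1) (fun ρ => (rd (At (fun i => (e i).succ) ρ)).N)
      (fun u ρ => (rd (At (fun i => (e i).succ) ρ)).J u →
      (((rd (At (fun i => (e i).succ) ρ)).Cl (x (fun i => ρ i.succ)) u ↔ u = (ρ 0).length) ∧
       ((rd (At (fun i => (e i).succ) ρ)).Cl (y (fun i => ρ i.succ)) u ↔ u = (ρ 0).length))) hN1
      (timp K (hr2 _ _ hv2 hv2).2.1 (K.and _ _ _
        (tiff K (hr2 _ _ hx2 hv2).2.2.1 (K.eq _ _ _ hv2 hw2))
        (tiff K (hr2 _ _ hy2 hv2).2.2.1 (K.eq _ _ _ hv2 hw2))))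
  have h3 : Test r (fun ρ => ∃ a < (rd (At e ρ)).N, (rd (At e ρ)).J a ∧
      ∀ u < (rd (At e ρ)).N, (rd (At e ρ)).J u →
        (((rd (At e ρ)).Cl (x ρ) u ↔ u = a) ∧ ((rd (At e ρ)).Cl (y ρ) u ↔ u = a))) :=
    K.ex r (fun ρ => (rd (At e ρ)).N) (fun a ρ => (rd (At e ρ)).J a ∧
      ∀ u < (rd (At e ρ)).N, (rd (At e ρ)).J u →
        (((rd (At e ρ)).Cl (x ρ) u ↔ u = a) ∧ ((rd (At e ρ)).Cl (y ρ) u ↔ u = a))) hN
      (K.and _ _ _ (hr1 _ _ hv1 hv1).2.1 h2)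
  exact K.and _ _ _ (K.lt _ _ _ hx hN) (K.and _ _ _ (K.lt _ _ _ hy hN)
    (K.or _ _ _ (K.and _ _ _ (K.eq _ _ _ hx hy) h1)
      (K.and _ _ _ (K.not _ _ (hr _ _ hx hy).2.2.1) h3)))

/-- the number of the first improving pair -/
theorem nps (h : PraStmt) (K : Kit) {r : ℕ} (e : Fin 5 → Fin r) :
    NumF r (fun ρ => (rd (At e ρ)).ps) := by
  obtain ⟨-, hN, -, -, -⟩ := h K r e
  obtain ⟨-, hN2, -, -, -⟩ := h K (r + 1 + 1) (fun i => (e i).succ.succ)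
  have hv1 : NumF (r + 1) (fun ρ : Fin (r + 1) → List Lt => (ρ 0).length) := K.var _ 0
  have hv2 : NumF (r + 1 + 1) (fun ρ : Fin (r + 1 + 1) → List Lt => (ρ 0).length) := K.var _ 0
  have h1 := K.not _ _ (tim h K (fun i => (e i).succ.succ) (K.div _ _ _ hv2 hN2)
    (K.mod _ _ _ hv2 hN2))
  have h2 := K.all (r + 1) (fun ρ => (ρ 0).length + 1)
    (fun q ρ => ¬ (rd (At (fun i => (e i).succ) ρ)).Im
      (q / (rd (At (fun i => (e i).succ) ρ)).N) (q % (rd (At (fun i => (e i).succ) ρ)).N))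
    (K.add _ _ _ hv1 (K.cst _ 1)) h1
  exact K.cnt r (fun ρ => (rd (At e ρ)).N * (rd (At e ρ)).N)
    (fun p ρ => ∀ q < p + 1, ¬ (rd (At e ρ)).Im (q / (rd (At e ρ)).N) (q % (rd (At e ρ)).N))
    (K.mul _ _ _ hN hN) h2

theorem pri (h : PraStmt) : PriStmt := by
  intro K r e
  obtain ⟨-, hN, -, -, hr⟩ := h K r e
  have hps := nps h K e
  have hI : Test r (fun ρ => (rd (At e ρ)).Impr) := K.lt _ _ _ hps (K.mul _ _ _ hN hN)
  refine ⟨hI, fun x hx => ?_⟩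
  have hd := K.div _ _ _ hps hN
  have hm := K.mod _ _ _ hps hN
  have h1 : Test r (fun ρ => (rd (At e ρ)).J2 (x ρ)) :=
    K.or _ _ _ (K.eq _ _ _ hx hd) (K.or _ _ _ (K.eq _ _ _ hx hm)
      (K.and _ _ _ (hr _ _ hx hx).2.1 (K.not _ _ (hr _ _ hd hx).2.2.1)))
  refine Test.congr (K.or _ _ _ (K.and _ _ _ hI h1)
    (K.and _ _ _ (K.not _ _ hI) (hr _ _ hx hx).2.1)) fun ρ => ?_
  unfold Gr.nV
  by_cases hc : (rd (At e ρ)).Impr
  · rw [if_pos hc]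
    exact ⟨fun h => h.elim (fun h => h.2) fun h => absurd hc h.1, fun h => Or.inl ⟨hc, h⟩⟩
  · rw [if_neg hc]
    exact ⟨fun h => h.elim (fun h => absurd h.1 hc) fun h => h.2, fun h => Or.inr ⟨hc, h⟩⟩

end Pool.Agent.C4U.H59
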